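import Pool.Agent.Helper65.NumOrb

/-!
# MP_cfa8a6_an: a bounded operator such that every multiple of the identity is a weak limit of its powers

Beside the frozen statement `S06219`.
-/

set_option autoImplicit false

open Filter Topology
open scoped InnerProductSpace

namespace Pool.Agent.Results.MP_cfa8a6_an.WeakLimits

/-- On a separable infinite dimensional complex Hilbert space there is a bounded operator `T` such that (1) for all `x`, `y` which are not
orthogonal the numbers `⟨T ^ n x, y⟩` are dense in `ℂ`, (2) for every `z` some subsequence of the powers of `T` converges to `z` times the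
identity in the weak operator topology. -/
theorem result (H : Type*) [NormedAddCommGroup H] [InnerProductSpace ℂ H] [CompleteSpace H]
    [TopologicalSpace.SeparableSpace H] (hH : ¬ FiniteDimensional ℂ H) :
    ∃ T : H →L[ℂ] H,
      (∀ x y : H, ⟪y, x⟫_ℂ ≠ 0 → Dense (Set.range (fun n : ℕ => ⟪y, (T ^ n) x⟫_ℂ))) ∧
      ∀ z : ℂ, ∃ n : ℕ → ℕ, StrictMono n ∧ ∀ x y : H,
        Tendsto (fun k => ⟪y, (T ^ n k) x⟫_ℂ) atTop (𝓝 (z * ⟪y, x⟫_ℂ)) := by
  obtain ⟨T, hT⟩ := Pool.Agent.Helper65.NumOrb.transport H hH
  refine ⟨T, fun x y hxy => ?_, hT⟩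
  intro w
  obtain ⟨n, -, hn⟩ := hT (w / ⟪y, x⟫_ℂ)
  have h := hn x y
  rw [div_mul_cancel₀ _ hxy] at h
  exact mem_closure_of_tendsto h (Eventually.of_forall fun k => ⟨n k, rfl⟩)

end Pool.Agent.Results.MP_cfa8a6_an.WeakLimits
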